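import Pool.Agent.Helper4.T7.StD

/-!
# Project T7 (levels `7·5^n`), module Tri: triangular system of symbols modulo 5

Model: `Pool/Agent/Helper36/TH7/M_Tri.lean`. With `B = i' + j' + e` the value of the word `(c', i', j')` on the solution with index `c` is a finite expression in `c`, `c'`, `e` (`wv` below), so the triangular claims are one finite check.
-/

set_option autoImplicit false

namespace Pool.Agent.Helper44.T7

open Pool.Agent.Helper4.T7
open Pool.Agent.Helper14.W5 (Fn5 Wd5 dX dY Lw bb5 S5Low0 S5Bb)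
open Pool.Agent.Helper28.T7 (HTy SymH)

/-- The value of the functional `c'` on `F_f` if the exponent of `Y` which is left is `e`. -/
private def wv (c' e : ℕ) (f : Fin 5) : ZMod 5 :=
  if e = lwQ c' f.val then ((qOQ c' f.val (lwQ c' f.val) : ℤ) : ZMod 5) else 0

private theorem chk : ∀ (c c' : Fin 8) (e : Fin 2), (e.val ≤ bQ c'.val ∧ (e.val ≠ bQ c'.val ∨ c' ≠ c) ∧
    (nOQ c.val + 2 * e.val) % 4 = (nOQ c'.val + 2 * bQ c.val) % 4) →
    (∀ f : Fin 5, tpQ c.val f = 0 ∨ qOQ c'.val f.val (lwQ c'.val f.val) = 0 ∨ e.val ≤ lwQ c'.val f.val) ∧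
    ∑ f : Fin 5, tpQ c.val f * wv c'.val e.val f = 0 := by decide

private theorem chd : ∀ c : Fin 8,
    (∀ f : Fin 5, tpQ c.val f = 0 ∨ qOQ c.val f.val (lwQ c.val f.val) = 0 ∨ bQ c.val ≤ lwQ c.val f.val) ∧
    ∑ f : Fin 5, tpQ c.val f * wv c.val (bQ c.val) f ≠ 0 := by decide

private theorem chb : ∀ c < 8, bQ c ≤ 1 := by decide

/-- The value only depends on the leading form. -/
private theorem lead_Tri {r s : ℕ} (hl : S5Low0) (O : Module.End (ZMod 5) (Fn5 (5 ^ r) (5 ^ s)))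
    (k : ℤ) (hO : Lw O k) (F L : Fn5 (5 ^ r) (5 ^ s)) (h : F - L ∈ Wd5 (k - 1)) :
    O F = O L := by
  have h1 := hO _ _ h
  have h2 : k - 1 - k = -1 := by ring
  rw [h2] at h1
  have h3 := (hl r s).2.2.2.2.2.2.2.2.2.2.2.2.2 _ h1
  rw [map_sub] at h3
  exact sub_eq_zero.1 h3

/-- TRI. -/
theorem hTri (hl : S5Low0) (hb : S5Bb) (hd : TLed) (hx : TEx) (hi : TItr) (hf : TTrf) :
    TTri := by
  intro r s c i j hc hr hs
  obtain ⟨F, hRel, hF⟩ := hd r s c i j hc hr hs
  obtain ⟨G, hG, hGF⟩ := hx (ZMod 5) inferInstance r s F hRel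
  obtain ⟨A, hA⟩ : ∃ A, A = aQ c + i + 5 * j := ⟨_, rfl⟩
  obtain ⟨B, hB⟩ : ∃ B, B = bQ c + i + j := ⟨_, rfl⟩
  have hdg : dgQ c i j = A + B := by
    rw [hA, hB]
    unfold dgQ
    ring
  have hrh : rhQ c i j = B := by rw [hB]; rfl
  rw [← hA, ← hB] at hF
  rw [← hA] at hr
  rw [← hB] at hs
  have hbb : (bb5 A B : Fn5 (5 ^ r) (5 ^ s)) ∈ Wd5 ((A : ℤ) + B) := (hb r s).1 A B hr hs
  have hdz : ((A + B : ℕ) : ℤ) = (A : ℤ) + B := by push_cast; ring
  have hF' : ∀ f : Fin 5, F f - tpQ c f • bb5 A B ∈ Wd5 ((A : ℤ) + B - 1) := by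
    intro f
    have h := hF f
    rw [hdg, hdz] at h
    exact h
  have hFd : ∀ f : Fin 5, F f ∈ Wd5 ((A : ℤ) + B) := by
    intro f
    have h1 : F f = (F f - tpQ c f • bb5 A B) + tpQ c f • bb5 A B := by rw [sub_add_cancel]
    rw [h1]
    exact Submodule.add_mem _ ((hl r s).2.2.2.2.1 _ _ (by omega) (hF' f))
      (Submodule.smul_mem _ _ hbb)
  have hI := hi r s G (A + B) hG (fun f => by rw [hGF f, hdz]; exact hFd f)
  have hval : ∀ c' i' j' : ℕ, c' ≤ 7 → dgQ c' i' j' = A + B →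
      evQ (5 ^ r) G c' i' j' = ∑ f : Fin 5, tpQ c f *
        ((MoQ c' f.val * QoQ ^ i' * LoQ ^ j' : Module.End (ZMod 5) (Fn5 (5 ^ r) (5 ^ s)))
          (bb5 A B)) 0 0 := by
    intro c' i' j' hc' h
    rw [(hI c' i' j' hc').2 h]
    refine Finset.sum_congr rfl fun f _ => ?_
    rw [hGF f]
    have h1 := (hf r s).1 c' i' j' f hc'
    rw [h, hdz] at h1
    rw [lead_Tri hl _ _ h1 (F f) (tpQ c f • bb5 A B) (hF' f), map_smul]
    rfl
  -- the value for `B = i' + j' + e`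
  have hE : ∀ c' i' j' e : ℕ, c' ≤ 7 → dgQ c' i' j' = A + B → B = i' + j' + e →
      (∀ f : Fin 5, tpQ c f = 0 ∨ qOQ c' f.val (lwQ c' f.val) = 0 ∨ e ≤ lwQ c' f.val) →
      evQ (5 ^ r) G c' i' j' = ∑ f : Fin 5, tpQ c f * wv c' e f := by
    intro c' i' j' e hc' h hBe hfe
    rw [hval c' i' j' hc' h]
    refine Finset.sum_congr rfl fun f _ => ?_
    rcases hfe f with h0 | h0 | h0
    · rw [h0, zero_mul, zero_mul]
    · have h1 : (wv c' e f) = 0 := by
        unfold wv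
        rw [h0]
        simp
      rw [(hf r s).2.1 c' f hc' h0, zero_mul, zero_mul, h1]
      rfl
    · congr 1
      unfold wv
      rcases h0.lt_or_eq with h1 | h1
      · rw [if_neg h1.ne]
        exact ((hf r s).2.2 c' i' j' A B f hc' hr hs h.symm).1 (by omega)
      · rw [if_pos h1]
        exact ((hf r s).2.2 c' i' j' A B f hc' hr hs h.symm).2 (by omega)
  -- the value for `B < i' + j'`
  have hZ : ∀ c' i' j' : ℕ, c' ≤ 7 → dgQ c' i' j' = A + B → B < i' + j' →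
      evQ (5 ^ r) G c' i' j' = 0 := by
    intro c' i' j' hc' h hlt
    rw [hval c' i' j' hc' h]
    refine Finset.sum_eq_zero fun f _ => ?_
    rw [((hf r s).2.2 c' i' j' A B f hc' hr hs h.symm).1 (by omega), mul_zero]
  refine ⟨G, hG, ?_, ?_⟩
  · obtain ⟨h1, h2⟩ := chd ⟨c, by omega⟩
    rw [hE c i j (bQ c) hc hdg (by omega) h1]
    exact h2
  · intro c' i' j' hc' hne
    rw [hdg, hrh]
    rcases lt_trichotomy (dgQ c' i' j') (A + B) with h | h | h
    · exact Or.inl h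
    · refine Or.inr ⟨h, ?_⟩
      by_contra hcon
      apply hne
      have hrh' : rhQ c' i' j' = bQ c' + i' + j' := rfl
      rw [hrh'] at hcon
      push Not at hcon
      obtain ⟨hcon1, hcon2⟩ := hcon
      rcases lt_or_ge B (i' + j') with hlt | hge
      · exact hZ c' i' j' hc' h hlt
      · obtain ⟨e, he⟩ : ∃ e, B = i' + j' + e := ⟨B - (i' + j'), by omega⟩
        have hb' := chb c' (by omega)
        have hdg' : nOQ c' + 2 * (i' + j') + 4 * j' = nOQ c + 2 * (i + j) + 4 * j := by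
          unfold nOQ
          unfold dgQ at h
          omega
        have hne' : e ≠ bQ c' ∨ (⟨c', by omega⟩ : Fin 8) ≠ ⟨c, by omega⟩ := by
          rcases eq_or_ne e (bQ c') with h0 | h0
          · refine Or.inr fun h9 => hcon2 (by omega) ?_
            exact Fin.mk.inj_iff.1 h9
          · exact Or.inl h0
        obtain ⟨h1, h2⟩ := chk ⟨c, by omega⟩ ⟨c', by omega⟩ ⟨e, by omega⟩
          ⟨by show e ≤ bQ c'; omega, hne', by show (nOQ c + 2 * e) % 4 = (nOQ c' + 2 * bQ c) % 4; omega⟩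
        rw [hE c' i' j' e hc' h he h1]
        exact h2
    · exact absurd ((hI c' i' j' hc').1 h) hne

end Pool.Agent.Helper44.T7
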